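import Mathlib

namespace Pool.Agent.Results.MP_6906cd_lc.SmallB

open Filter Set Cardinal

/-- strong measure zero subsets of the real line -/
def SN (X : Set ℝ) : Prop :=
  ∀ ε : ℕ → ℝ, (∀ n, 0 < ε n) → ∃ a b : ℕ → ℝ, (∀ n, a n ≤ b n ∧ b n - a n < ε n) ∧
    X ⊆ ⋃ n, Icc (a n) (b n)

def step (s : ℚ × ℚ) (m : ℕ) : ℚ × ℚ := (s.1 + s.2 / (m + 2), s.2 / (m + 2) / 2)

def st (e : ℕ → ℕ) : ℕ → ℚ × ℚ
  | 0 => (0, 1)
  | n + 1 => step (st e n) (e n)

def R (e : ℕ → ℕ) (x : ℝ) : Prop :=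
  ∀ n, ((st e n).1 : ℝ) ≤ x ∧ x ≤ (st e n).1 + (st e n).2

lemma w_pos (e : ℕ → ℕ) (n : ℕ) : 0 < (st e n).2 ∧ (st e n).2 ≤ 1 := by
  induction n with
  | zero => simp [st]
  | succ n ih =>
    simp only [st, step]
    have h : (st e n).2 / (e n + 2) ≤ (st e n).2 :=
      div_le_self ih.1.le (by linarith [show (0 : ℚ) ≤ e n by positivity])
    have := ih.1
    exact ⟨by positivity, by linarith [ih.2]⟩

lemma exists_R (e : ℕ → ℕ) : ∃ x, R e x := by
  have h1 : Monotone (fun n => ((st e n).1 : ℝ)) := monotone_nat_of_le_succ fun n => by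
    have := (w_pos e n).1
    have h : (st e n).1 ≤ (st e (n + 1)).1 := by
      simp only [st, step]
      exact le_add_of_nonneg_right (by positivity)
    exact_mod_cast h
  have h2 : Antitone (fun n => ((st e n).1 : ℝ) + (st e n).2) := antitone_nat_of_succ_le fun n => by
    have := (w_pos e n).1
    have h0 : (st e n).2 / (e n + 2) ≤ (st e n).2 / 2 :=
      div_le_div_of_nonneg_left this.le (by norm_num)
        (by linarith [show (0 : ℚ) ≤ e n by positivity])
    have h : (st e (n + 1)).1 + (st e (n + 1)).2 ≤ (st e n).1 + (st e n).2 := by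
      simp only [st, step]
      linarith
    exact_mod_cast h
  refine ⟨_, fun n => mem_iInter.1 (Monotone.ciSup_mem_iInter_Icc_of_antitone h1 h2 ?_) n⟩
  intro n
  have : (0 : ℝ) < (st e n).2 := by exact_mod_cast (w_pos e n).1
  simp only
  linarith

lemma bound (δ : ℚ → ℝ) (hδ : ∀ q, 0 < δ q) :
    ∃ g : ℕ → ℕ, ∀ e x, R e x → (∀ q : ℚ, δ q ≤ |x - q|) → ∀ n, e n ≤ g n := by
  classical
  let G : ℚ × ℚ → ℕ := fun s => ⌈2 / δ s.1⌉₊
  let A : ℕ → Finset (ℚ × ℚ) := fun n => Nat.rec {(0, 1)}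
    (fun _ B => (B ×ˢ Finset.range (B.sup G + 1)).image (fun p => step p.1 p.2)) n
  refine ⟨fun n => (A n).sup G, fun e x hR hx => ?_⟩
  have h1 : ∀ n, e n ≤ G (st e n) := by
    intro n
    have a1 := (hR n).1
    have a2 := (hR (n + 1)).2
    have a3 := hx (st e n).1
    rw [abs_of_nonneg (by linarith)] at a3
    have a4 : ((st e n).2 : ℝ) ≤ 1 := by exact_mod_cast (w_pos e n).2
    simp only [st, step] at a2
    push_cast at a2
    have a5 : ((st e n).2 : ℝ) / (e n + 2) ≤ 1 / (e n + 2) := by gcongr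
    have a6 : δ (st e n).1 ≤ 2 / (e n + 2) := by
      have : (2 : ℝ) / (e n + 2) = 2 * (1 / (e n + 2)) := by ring
      have : (0 : ℝ) < 1 / (e n + 2) := by positivity
      linarith
    have a7 : (e n : ℝ) ≤ 2 / δ (st e n).1 := by
      rw [le_div_iff₀ (by positivity)] at a6
      rw [le_div_iff₀ (hδ _)]
      nlinarith [hδ (st e n).1]
    exact_mod_cast a7.trans (Nat.le_ceil _)
  have h2 : ∀ n, st e n ∈ A n := by
    intro n
    induction n with
    | zero => simp [A, st]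
    | succ n ih =>
      refine Finset.mem_image.2 ⟨(st e n, e n), Finset.mem_product.2 ⟨ih, ?_⟩, rfl⟩
      exact Finset.mem_range.2 (Nat.lt_succ_of_le ((h1 n).trans (Finset.le_sup (f := G) ih)))
  exact fun n => (h1 n).trans (Finset.le_sup (f := G) (h2 n))

lemma avoid (F : Set ℝ) (hF : SN F) (f : ℕ → ℕ) :
    ∃ e x, R e x ∧ (∀ n, f n ≤ e n) ∧ x ∉ F := by
  classical
  let f' : ℕ → ℕ := fun n => 2 * f n + 2
  obtain ⟨a, b, hab, hsub⟩ := hF (fun n => (st f' (n + 1)).2)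
    (fun n => by exact_mod_cast (w_pos f' (n + 1)).1)
  let c : ℕ → ℚ × ℚ → ℕ := fun n s => if b n < ((step s (f n)).1 : ℝ) then f n else f' n
  let s : ℕ → ℚ × ℚ := fun n => Nat.rec (0, 1) (fun n t => step t (c n t)) n
  let e : ℕ → ℕ := fun n => c n (s n)
  have hs : ∀ n, st e n = s n := by
    intro n
    induction n with
    | zero => rfl
    | succ n ih => simp only [st, ih]; rfl
  have he : ∀ n, f n ≤ e n ∧ e n ≤ f' n := by
    intro n
    simp only [e, c, f']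
    split_ifs <;> omega
  have hw : ∀ n, (st f' n).2 ≤ (st e n).2 := by
    intro n
    induction n with
    | zero => exact le_rfl
    | succ n ih =>
      simp only [st, step]
      have := (w_pos e n).1
      have : (e n : ℚ) ≤ f' n := by exact_mod_cast (he n).2
      gcongr
  obtain ⟨x, hx⟩ := exists_R e
  refine ⟨e, x, hx, fun n => (he n).1, fun hxF => ?_⟩
  obtain ⟨n, hn⟩ := mem_iUnion.1 (hsub hxF)
  have h1 := hx (n + 1)
  by_cases h : b n < ((step (s n) (f n)).1 : ℝ)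
  · have : e n = f n := if_pos h
    simp only [st, this, hs] at h1
    linarith [hn.2, h1.1]
  · have e1 : e n = f' n := if_neg h
    have h2 := (hab n).2
    have h3 : ((st f' (n + 1)).2 : ℝ) ≤ (st e (n + 1)).2 := by exact_mod_cast hw (n + 1)
    rw [← hs] at h
    simp only [st, e1, step, f'] at h1 h3 h h2
    push_cast at h1 h3 h h2
    have h4 : ((st e n).2 : ℝ) / (f n + 2) = 2 * ((st e n).2 / (2 * f n + 2 + 2)) := by
      field_simp; ring
    linarith [hn.1, h1.2]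

lemma dom (S : Set (ℕ → ℕ)) (hS : S.Countable) : ∃ f : ℕ → ℕ, ∀ h ∈ S, ∀ᶠ n in atTop, h n ≤ f n := by
  obtain ⟨y, hy⟩ := countable_iff_exists_subset_range.1 hS
  refine ⟨fun n => (Finset.range (n + 1)).sup (fun i => y i n), fun h hh => ?_⟩
  obtain ⟨i, rfl⟩ := hy hh
  filter_upwards [eventually_ge_atTop i] with n hn
  exact Finset.le_sup (f := fun i => y i n) (Finset.mem_range.2 (by omega))

theorem result (B : Set (ℕ → ℕ)) (hB : #B ≤ ℵ₁)
    (hU : ∀ g : ℕ → ℕ, ∃ h ∈ B, ¬ ∀ᶠ n in atTop, h n ≤ g n)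
    (𝓕 : Set (Set ℝ)) (hc : #𝓕 ≤ ℵ₁) (hF : ∀ F ∈ 𝓕, SN F) :
    ∃ X : Set ℝ, SN X ∧ ∀ F ∈ 𝓕, ¬ X ⊆ F := by
  classical
  have hι : #((ℵ₁ : Cardinal.{0}).ord.ToType) = ℵ₁ := mk_ord_toType _
  obtain ⟨j⟩ := (Cardinal.le_def _ _).1 (hB.trans hι.ge)
  obtain ⟨k⟩ := (Cardinal.le_def _ _).1 (hc.trans hι.ge)
  have hIio : ∀ α : (ℵ₁ : Cardinal.{0}).ord.ToType, (Iio α).Countable := fun α =>
    (countable_iff_lt_aleph_one _).2 (mk_Iio_toType_ord_lt α)
  have hIic : ∀ α : (ℵ₁ : Cardinal.{0}).ord.ToType, (Iic α).Countable := fun α => by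
    rw [← Iio_insert]
    exact (hIio α).insert α
  choose f hf using fun F : 𝓕 =>
    dom (Subtype.val '' (j ⁻¹' Iic (k F))) (((hIic _).preimage j.injective).image _)
  choose e x hR hfe hx using fun F : 𝓕 => avoid F.1 (hF _ F.2) (f F)
  refine ⟨range x, fun ε hε => ?_, fun F h hs => hx ⟨F, h⟩ (hs ⟨_, rfl⟩)⟩
  obtain ⟨qn, hqn⟩ := exists_surjective_nat ℚ
  choose iv hiv using hqn
  obtain ⟨g, hg⟩ := bound (fun q => ε (2 * iv q) / 3) (fun q => by have := hε (2 * iv q); positivity)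
  obtain ⟨h, hh, hn⟩ := hU g
  obtain ⟨y, hy⟩ := countable_iff_exists_subset_range.1
    (((hIio (j ⟨h, hh⟩)).preimage k.injective).image x)
  refine ⟨fun n => if n % 2 = 0 then qn (n / 2) - ε n / 3 else y (n / 2),
    fun n => if n % 2 = 0 then qn (n / 2) + ε n / 3 else y (n / 2), fun n => ?_, ?_⟩
  · have := hε n
    by_cases c : n % 2 = 0 <;> simp only [c, if_true, if_false] <;> constructor <;> linarith
  · rintro _ ⟨F, rfl⟩
    by_cases c : ∀ q : ℚ, ε (2 * iv q) / 3 ≤ |x F - q|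
    · have h1 : k F < j ⟨h, hh⟩ := by
        by_contra hc'
        apply hn
        filter_upwards [hf F h ⟨⟨h, hh⟩, not_lt.1 hc', rfl⟩] with n h2
        exact h2.trans ((hfe F n).trans (hg _ _ (hR F) c n))
      obtain ⟨i, hi⟩ := hy ⟨F, h1, rfl⟩
      refine mem_iUnion.2 ⟨2 * i + 1, ?_⟩
      have e1 : ¬ (2 * i + 1) % 2 = 0 := by omega
      have e2 : (2 * i + 1) / 2 = i := by omega
      simp only [e1, e2, if_false, hi]
      exact ⟨le_rfl, le_rfl⟩
    · push Not at c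
      obtain ⟨q, hq⟩ := c
      refine mem_iUnion.2 ⟨2 * iv q, ?_⟩
      have e1 : (2 * iv q) % 2 = 0 := by omega
      have e2 : (2 * iv q) / 2 = iv q := by omega
      simp only [e1, e2, if_true, hiv]
      rw [abs_lt] at hq
      constructor <;> linarith [hq.1, hq.2]

end Pool.Agent.Results.MP_6906cd_lc.SmallB
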